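import Mathlib
import Pool.Agent.K3h89.SD.AVG
import Pool.Agent.K3h89.SD.PAIR
import Pool.Agent.K3h89.SD.TWO
import Pool.Agent.K3h89.SI.Real
import Pool.Agent.K3h31.WL.SqFin

/-!
# Progressions with the same difference on both sides of every square

Oppermann's conjecture asks for primes in `(n ^ 2 - n, n ^ 2)` and in `(n ^ 2, n ^ 2 + n)`, the `k`-fold conjecture for at
least `k` of them in both intervals.  Here the primes are replaced by the elements of dense sets of integers without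
small prime factors, and the two intervals are treated SIMULTANEOUSLY.

(1) Let `δ, κ > 0`.  For all large `n`, if `S ⊆ (n ^ 2 - n, n ^ 2)` and `T ⊆ (n ^ 2, n ^ 2 + n)` are sets of at least
`κ n / log n` integers without prime factors less than `n ^ δ` (for example of primes, `δ < 2`), then `S` and `T` contain
`k`-term arithmetic progressions WITH THE SAME DIFFERENCE `d ≤ (log n) ^ B`, `B = B(k, δ, κ)`.

(2) For all large `n` both intervals contain at least `c n / log n` integers with at most three prime factors, all of them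
at least `n ^ (1/6)`, and any two subsets of them (one for each interval) of a positive proportion contain such
progressions with the same difference.

(3) The same is true of the integers with at most TWO prime factors, all of them at least `n ^ (1/5)`, for all but at most
`C N ^ 0.182` of the `n` in `(N, 2 N]`.

Method.  Both sets have dense parts in two windows of length `n ^ (3/5)`, whose distance is between `n ^ (3/5)` and
`2 n`.  Counting pairs, and with the mean value of the singular series over short intervals (Rankin), there is a shift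
`s` such that `{x ∈ S : x + s ∈ T}` has a positive proportion of the number of `x` in the window for which `x (x + s)`
has no small prime factors; Szemerédi's theorem relative to this sifted set (pseudorandom majorant for the polynomial
`x (x + s)`, uniformly in `s`) gives the progressions.  The almost primes are counted by the weights of Richert
(`K3h31.LP`, `K3h19.RV`, `K3h31.WL` of this team).
-/

set_option autoImplicit false

open Finset Filter

namespace Pool.Agent.Results.MP_1e9cc8_nt.DenseSetsBothSides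

/-- the integers in `(n ^ 2 - n, n ^ 2)` -/
def left (n : ℕ) : Set ℕ := {m : ℕ | n ^ 2 < m + n ∧ m < n ^ 2}

/-- the integers in `(n ^ 2, n ^ 2 + n)` -/
def right (n : ℕ) : Set ℕ := {m : ℕ | n ^ 2 < m ∧ m < n ^ 2 + n}

/-- the elements of `S` have no prime factor less than `w` -/
def Rough (w : ℝ) (S : Set ℕ) : Prop := ∀ m ∈ S, ∀ q : ℕ, q.Prime → q ∣ m → w ≤ q

/-- `S` and `T` contain `k`-term arithmetic progressions `a, a + d, ..., a + (k - 1) d` and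
`b, b + d, ..., b + (k - 1) d` with the same difference `1 ≤ d ≤ D` -/
def HaveAPs (k : ℕ) (D : ℝ) (S T : Set ℕ) : Prop :=
  ∃ a b d : ℕ, 1 ≤ d ∧ (d : ℝ) ≤ D ∧ ∀ i < k, a + i * d ∈ S ∧ b + i * d ∈ T

/-- the elements of `I` with at most `r` prime factors (counted with multiplicity), all of them at least `w` -/
def almostPrimes (r : ℕ) (w : ℝ) (I : Set ℕ) : Set ℕ :=
  {m : ℕ | m ∈ I ∧ m.primeFactorsList.length ≤ r ∧ ∀ q : ℕ, q.Prime → q ∣ m → w ≤ q}

/-- both `(n ^ 2 - n, n ^ 2)` and `(n ^ 2, n ^ 2 + n)` contain at least `c n / log n` integers with at most `r` prime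
factors, all of them at least `w` -/
def Rich (r : ℕ) (w c : ℝ) (n : ℕ) : Prop :=
  c * (n / Real.log n) ≤ ((almostPrimes r w (left n)).ncard : ℝ) ∧
  c * (n / Real.log n) ≤ ((almostPrimes r w (right n)).ncard : ℝ)

/-- any `S ⊆ G` and `T ⊆ G'` of proportion at least `κ` contain `k`-term arithmetic progressions with the same
difference, which is at most `D` -/
def Szemeredi (k : ℕ) (κ D : ℝ) (G G' : Set ℕ) : Prop :=
  ∀ S ⊆ G, ∀ T ⊆ G', κ * (G.ncard : ℝ) ≤ (S.ncard : ℝ) → κ * (G'.ncard : ℝ) ≤ (T.ncard : ℝ) → HaveAPs k D S T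

theorem left_fin (n : ℕ) (S : Set ℕ) (h : S ⊆ left n) : S.Finite :=
  (Set.finite_Iio (n ^ 2)).subset (fun _ hm => (h hm).2)

theorem right_fin (n : ℕ) (S : Set ℕ) (h : S ⊆ right n) : S.Finite :=
  (Set.finite_Iio (n ^ 2 + n)).subset (fun _ hm => (h hm).2)

theorem both (k : ℕ) (δ κ : ℝ) (hδ : 0 < δ) (hκ : 0 < κ) :
    ∃ B n₀ : ℕ, ∀ n : ℕ, n₀ ≤ n → ∀ S ⊆ left n, ∀ T ⊆ right n,
      Rough ((n : ℝ) ^ δ) S → Rough ((n : ℝ) ^ δ) T →
      κ * (n / Real.log n) ≤ (S.ncard : ℝ) → κ * (n / Real.log n) ≤ (T.ncard : ℝ) →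
      HaveAPs k (Real.log n ^ B) S T := by
  classical
  obtain ⟨B, n₀, h⟩ := Pool.Agent.K3h89.SD.two Pool.Agent.K3h89.SD.pair Pool.Agent.K3h89.SD.avg k δ κ hδ hκ
  refine ⟨B, n₀, fun n hn S hS T hT hSr hTr hSc hTc => ?_⟩
  have hSf := left_fin n S hS
  have hTf := right_fin n T hT
  obtain ⟨a, b, d, e1, e2, e3⟩ := h n hn hSf.toFinset hTf.toFinset
    (by
      intro x hx
      have h1 := hS (hSf.mem_toFinset.1 hx)
      have h2 : n ^ 2 < x + n := h1.1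
      have h3 : x < n ^ 2 := h1.2
      have h4 : n ≤ n ^ 2 := Nat.le_self_pow (by norm_num) n
      constructor <;> omega)
    (by
      intro x hx
      exact hT (hTf.mem_toFinset.1 hx))
    (by
      intro x hx p hp hd
      rw [mem_union] at hx
      rcases hx with hx | hx
      · exact hSr x (hSf.mem_toFinset.1 hx) p hp hd
      · exact hTr x (hTf.mem_toFinset.1 hx) p hp hd)
    (by rwa [← Set.ncard_eq_toFinset_card S hSf])
    (by rwa [← Set.ncard_eq_toFinset_card T hTf])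
  exact ⟨a, b, d, e1, e2, fun i hi => ⟨hSf.mem_toFinset.1 (e3 i hi).1, hTf.mem_toFinset.1 (e3 i hi).2⟩⟩

theorem szem (r : ℕ) (δ c : ℝ) (hδ : 0 < δ) (hc : 0 < c) (k : ℕ) (κ : ℝ) (hκ : 0 < κ) :
    ∃ B n₀ : ℕ, ∀ n : ℕ, n₀ ≤ n → Rich r ((n : ℝ) ^ δ) c n →
      Szemeredi k κ (Real.log n ^ B) (almostPrimes r ((n : ℝ) ^ δ) (left n))
        (almostPrimes r ((n : ℝ) ^ δ) (right n)) := by
  obtain ⟨B, n₀, h⟩ := both k δ (κ * c) hδ (by positivity)
  refine ⟨B, n₀, fun n hn hR S hS T hT hSc hTc => ?_⟩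
  apply h n hn S (fun m hm => (hS hm).1) T (fun m hm => (hT hm).1) (fun m hm => (hS hm).2.2)
    (fun m hm => (hT hm).2.2)
  · refine le_trans ?_ hSc
    rw [mul_assoc]
    exact mul_le_mul_of_nonneg_left hR.1 hκ.le
  · refine le_trans ?_ hTc
    rw [mul_assoc]
    exact mul_le_mul_of_nonneg_left hR.2 hκ.le

open Pool.Agent.K3h19.RV in
theorem lam3_le : Lam 3 ≤ 14 / 5 := by
  unfold Lam
  have hL0 : 0 < Real.log 3 := by linarith [log3_pos]
  have h1 : Real.log (((3 : ℝ) ^ 3 + 1) / 4) / Real.log 3 ≤ 9 / 5 := by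
    rw [div_le_iff₀ hL0]
    have e : ((3 : ℝ) ^ 3 + 1) / 4 = 7 := by norm_num
    rw [e]
    have h2 : Real.log ((7 : ℝ) ^ 5) ≤ Real.log ((3 : ℝ) ^ 9) := Real.log_le_log (by norm_num) (by norm_num)
    rw [Real.log_pow, Real.log_pow] at h2
    push_cast at h2
    linarith
  linarith

theorem rich3 : ∃ c : ℝ, 0 < c ∧ ∃ n₀ : ℕ, ∀ n : ℕ, n₀ ≤ n → Rich 3 ((n : ℝ) ^ (1 / 6 : ℝ)) c n := by
  have hL3 := Pool.Agent.K3h19.RV.lam_three
  have hL3' := lam3_le
  obtain ⟨L, hL⟩ : ∃ L : ℝ, L = Pool.Agent.K3h19.RV.Lam 3 := ⟨_, rfl⟩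
  rw [← hL] at hL3 hL3'
  obtain ⟨c, hc, x₀, h⟩ := Pool.Agent.K3h89.SI.count_ap 3 (by norm_num) (1 / 2) (by rw [← hL]; linarith) (by
    rw [← hL, div_lt_div_iff₀ (by linarith) (by norm_num)]
    linarith) (by norm_num)
  rw [← hL] at h
  have hT := tendsto_natCast_atTop_atTop (R := ℝ)
  have ev1 : ∀ᶠ n : ℕ in atTop, (2 : ℝ) ≤ (n : ℝ) ^ (1 / 10 : ℝ) :=
    ((tendsto_rpow_atTop (show (0 : ℝ) < 1 / 10 by norm_num)).comp hT).eventually_ge_atTop _
  have ev2 : ∀ᶠ n : ℕ in atTop, max x₀ 3 ≤ (n : ℝ) := hT.eventually_ge_atTop _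
  obtain ⟨n₀, hn₀⟩ := eventually_atTop.1 (ev1.and ev2)
  refine ⟨c / 2, by positivity, n₀, fun n hn => ?_⟩
  obtain ⟨w1, w2⟩ := hn₀ n hn
  have hx₀ : x₀ ≤ n := (le_max_left _ _).trans w2
  have hn3 : (3 : ℝ) ≤ n := (le_max_right _ _).trans w2
  have hn0 : (0 : ℝ) < n := by linarith
  have hn1 : (1 : ℝ) ≤ n := by linarith
  have hpow : (n : ℝ) ^ (19 / 10 : ℝ) ≤ (n : ℝ) ^ 2 - n := by
    have e : (n : ℝ) ^ 2 = (n : ℝ) ^ (19 / 10 : ℝ) * (n : ℝ) ^ (1 / 10 : ℝ) := by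
      rw [← Real.rpow_add hn0, ← Real.rpow_natCast]
      norm_num
    have h1 : 2 * (n : ℝ) ^ (19 / 10 : ℝ) ≤ (n : ℝ) ^ 2 := by
      rw [e, mul_comm]
      exact mul_le_mul_of_nonneg_left w1 (by positivity)
    nlinarith
  have hbig : (n : ℝ) ≤ (n : ℝ) ^ 2 - n := by nlinarith
  have hl0 : 0 < Real.log n := Real.log_pos (by linarith)
  -- a common estimate
  have key : ∀ x : ℝ, (n : ℝ) ^ 2 - n ≤ x → x ≤ (n : ℝ) ^ 2 → ∀ I : Set ℕ, I.Finite →
      (∀ m : ℕ, x < m → (m : ℝ) < x + n → m ∈ I) →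
      c / 2 * (n / Real.log n) ≤ ((almostPrimes 3 ((n : ℝ) ^ (1 / 6 : ℝ)) I).ncard : ℝ) := by
    intro x hx1 hx2 I hI hIm
    have hx0 : (0 : ℝ) < x := by linarith
    have hsq : ((n : ℝ) ^ 2) ^ (1 / 2 : ℝ) = n := by
      rw [← Real.rpow_natCast, ← Real.rpow_mul hn0.le]
      norm_num
    have h1 := h x n (by linarith) (by
      calc x ^ (1 / 2 : ℝ) ≤ ((n : ℝ) ^ 2) ^ (1 / 2 : ℝ) := Real.rpow_le_rpow hx0.le hx2 (by norm_num)
        _ = n := hsq) (by linarith)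
    have hlx0 : 0 < Real.log x := Real.log_pos (by linarith)
    have hlx : Real.log x ≤ 2 * Real.log n := by
      calc Real.log x ≤ Real.log ((n : ℝ) ^ 2) := Real.log_le_log hx0 hx2
        _ = 2 * Real.log n := by rw [Real.log_pow]; push_cast; ring
    have h2 : c / 2 * (n / Real.log n) ≤ c * (n / Real.log x) := by
      have e : c / 2 * (n / Real.log n) = c * (n / (2 * Real.log n)) := by
        field_simp
      rw [e]
      apply mul_le_mul_of_nonneg_left _ hc.le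
      exact div_le_div_of_nonneg_left hn0.le hlx0 hlx
    refine (h2.trans h1).trans ?_
    have hroot : (n : ℝ) ^ (1 / 6 : ℝ) ≤ x ^ (1 / (4 * L)) := by
      have hL0 : 0 < L := by linarith
      have hexp : (1 : ℝ) / 6 ≤ 19 / 10 * (1 / (4 * L)) := by
        rw [mul_one_div, div_le_div_iff₀ (by norm_num) (by positivity)]
        linarith
      calc (n : ℝ) ^ (1 / 6 : ℝ) ≤ (n : ℝ) ^ (19 / 10 * (1 / (4 * L))) :=
            Real.rpow_le_rpow_of_exponent_le hn1 hexp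
        _ = ((n : ℝ) ^ (19 / 10 : ℝ)) ^ (1 / (4 * L)) := Real.rpow_mul hn0.le _ _
        _ ≤ x ^ (1 / (4 * L)) := Real.rpow_le_rpow (by positivity) (by linarith) (by positivity)
    have hsub : {m : ℕ | x < m ∧ (m : ℝ) < x + n ∧ m.primeFactorsList.length ≤ 3 ∧
        ∀ q : ℕ, q.Prime → q ∣ m → x ^ (1 / (4 * L)) ≤ q} ⊆ almostPrimes 3 ((n : ℝ) ^ (1 / 6 : ℝ)) I :=
      fun m hm => ⟨hIm m hm.1 hm.2.1, hm.2.2.1, fun q hq hd => hroot.trans (hm.2.2.2 q hq hd)⟩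
    have h3 := Set.ncard_le_ncard hsub (hI.subset (fun m hm => hm.1))
    exact_mod_cast h3
  refine ⟨key ((n : ℝ) ^ 2 - n) le_rfl (by linarith) (left n) (left_fin n _ (fun _ h => h)) ?_,
    key ((n : ℝ) ^ 2) (by linarith) le_rfl (right n) (right_fin n _ (fun _ h => h)) ?_⟩
  · intro m h1 h2
    have h3 : ((n ^ 2 : ℕ) : ℝ) < ((m + n : ℕ) : ℝ) := by push_cast; linarith
    have h4 : (m : ℝ) < ((n ^ 2 : ℕ) : ℝ) := by push_cast; linarith
    exact ⟨by exact_mod_cast h3, by exact_mod_cast h4⟩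
  · intro m h1 h2
    have h3 : ((n ^ 2 : ℕ) : ℝ) < (m : ℝ) := by push_cast; linarith
    have h4 : (m : ℝ) < ((n ^ 2 + n : ℕ) : ℝ) := by push_cast; linarith
    exact ⟨by exact_mod_cast h3, by exact_mod_cast h4⟩

theorem rich2 : ∃ c C : ℝ, 0 < c ∧ 0 < C ∧ ∃ N₀ : ℕ, ∀ N : ℕ, N₀ ≤ N →
    ({n : ℕ | N < n ∧ n ≤ 2 * N ∧ ¬ Rich 2 ((n : ℝ) ^ (1 / 5 : ℝ)) c n}.ncard : ℝ) ≤ C * (N : ℝ) ^ (0.182 : ℝ) := by
  have hL2 := Pool.Agent.K3h19.RV.lam_two
  obtain ⟨δ, C, hδ, hC, h⟩ := Pool.Agent.K3h31.WL.two 2.182 (by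
    have h1 : 4 / Pool.Agent.K3h19.RV.Lam 2 ≤ 4 / (1 + 5 / 6) :=
      div_le_div_of_nonneg_left (by norm_num) (by norm_num) hL2
    norm_num at h1 ⊢
    linarith)
  refine ⟨δ / 2, C, by positivity, hC, 16, fun N hN => ?_⟩
  have hNr : (16 : ℝ) ≤ N := by exact_mod_cast hN
  have hN0 : (0 : ℝ) < N := by linarith
  have h1 := h N (by omega) N (by linarith)
  have e1 : C * (N : ℝ) ^ (2.182 : ℝ) / (N : ℝ) ^ 2 = C * (N : ℝ) ^ (0.182 : ℝ) := by
    have e2 : (N : ℝ) ^ (2.182 : ℝ) = (N : ℝ) ^ (0.182 : ℝ) * (N : ℝ) ^ 2 := by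
      rw [← Real.rpow_natCast, ← Real.rpow_add hN0]
      norm_num
    rw [e2]
    field_simp
  rw [e1] at h1
  refine le_trans ?_ h1
  have hsub : {n : ℕ | N < n ∧ n ≤ 2 * N ∧ ¬ Rich 2 ((n : ℝ) ^ (1 / 5 : ℝ)) (δ / 2) n} ⊆
      Pool.Agent.K3h31.WL.exc 2 (1 / 4) δ N N := by
    rintro n ⟨hn1, hn2, hR⟩
    refine ⟨hn1, hn2, N, le_rfl, le_rfl, ?_⟩
    by_contra hcon
    push Not at hcon
    obtain ⟨ha, hb⟩ := hcon
    apply hR
    have hn1r : (N : ℝ) < n := by exact_mod_cast hn1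
    have hn2r : (n : ℝ) ≤ 2 * N := by exact_mod_cast hn2
    have hn0 : (0 : ℝ) < n := by linarith
    have hlN : 0 < Real.log N := Real.log_pos (by linarith)
    have hln : Real.log N ≤ Real.log n := Real.log_le_log hN0 hn1r.le
    have hcnt : δ / 2 * (n / Real.log n) ≤ δ * N / Real.log N := by
      have h3 : (n : ℝ) / Real.log n ≤ 2 * N / Real.log N :=
        div_le_div₀ (by positivity) hn2r hlN hln
      have e : δ * N / Real.log N = δ / 2 * (2 * N / Real.log N) := by ring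
      rw [e]
      exact mul_le_mul_of_nonneg_left h3 (by positivity)
    have hroot : (n : ℝ) ^ (1 / 5 : ℝ) ≤ (N : ℝ) ^ (1 / 4 : ℝ) := by
      have h16 : (2 : ℝ) ≤ (N : ℝ) ^ (1 / 4 : ℝ) := by
        have e : (2 : ℝ) = (16 : ℝ) ^ (1 / 4 : ℝ) := by
          rw [show (16 : ℝ) = 2 ^ (4 : ℕ) by norm_num, ← Real.rpow_natCast, ← Real.rpow_mul (by norm_num)]
          norm_num
        rw [e]
        exact Real.rpow_le_rpow (by norm_num) hNr (by norm_num)
      have h5 : (n : ℝ) ≤ (N : ℝ) ^ (5 / 4 : ℝ) := by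
        have e : (N : ℝ) ^ (5 / 4 : ℝ) = (N : ℝ) ^ (1 / 4 : ℝ) * N := by
          rw [show (5 / 4 : ℝ) = 1 / 4 + 1 by norm_num, Real.rpow_add hN0, Real.rpow_one]
        rw [e]
        calc (n : ℝ) ≤ 2 * N := hn2r
          _ ≤ (N : ℝ) ^ (1 / 4 : ℝ) * N := mul_le_mul_of_nonneg_right h16 hN0.le
      calc (n : ℝ) ^ (1 / 5 : ℝ) ≤ ((N : ℝ) ^ (5 / 4 : ℝ)) ^ (1 / 5 : ℝ) :=
            Real.rpow_le_rpow hn0.le h5 (by norm_num)
        _ = (N : ℝ) ^ (1 / 4 : ℝ) := by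
            rw [← Real.rpow_mul hN0.le]
            norm_num
    constructor
    · refine (hcnt.trans hb).trans ?_
      have hs : Pool.Agent.K3h31.WL.below 2 n ((N : ℝ) ^ (1 / 4 : ℝ)) N ⊆
          almostPrimes 2 ((n : ℝ) ^ (1 / 5 : ℝ)) (left n) := by
        rintro m ⟨h1, h2, -, h4, h5⟩
        refine ⟨⟨?_, h2⟩, h4, fun q hq hd => hroot.trans (h5 q hq hd)⟩
        have h3 : ((n ^ 2 : ℕ) : ℝ) < ((m + n : ℕ) : ℝ) := by push_cast; linarith
        exact_mod_cast h3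
      have h3 := Set.ncard_le_ncard hs (left_fin n _ (fun _ h => h.1))
      exact_mod_cast h3
    · refine (hcnt.trans ha).trans ?_
      have hs : Pool.Agent.K3h31.WL.above 2 n ((N : ℝ) ^ (1 / 4 : ℝ)) N ⊆
          almostPrimes 2 ((n : ℝ) ^ (1 / 5 : ℝ)) (right n) := by
        rintro m ⟨h1, h2, -, h4, h5⟩
        refine ⟨⟨h1, ?_⟩, h4, fun q hq hd => hroot.trans (h5 q hq hd)⟩
        have h3 : (m : ℝ) < ((n ^ 2 + n : ℕ) : ℝ) := by push_cast; linarith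
        exact_mod_cast h3
      have h3 := Set.ncard_le_ncard hs (right_fin n _ (fun _ h => h.1))
      exact_mod_cast h3
  have h2 := Set.ncard_le_ncard hsub (Pool.Agent.K3h31.WL.exc_fin 2 (1 / 4) δ N N)
  exact_mod_cast h2

/-- **Progressions with the same difference on both sides of every square.**  See the explanation at the beginning of
the file. -/
theorem result :
    (∀ (k : ℕ) (δ κ : ℝ), 0 < δ → 0 < κ → ∃ B n₀ : ℕ, ∀ n : ℕ, n₀ ≤ n → ∀ S ⊆ left n, ∀ T ⊆ right n,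
      Rough ((n : ℝ) ^ δ) S → Rough ((n : ℝ) ^ δ) T →
      κ * (n / Real.log n) ≤ (S.ncard : ℝ) → κ * (n / Real.log n) ≤ (T.ncard : ℝ) →
      HaveAPs k (Real.log n ^ B) S T) ∧
    (∃ c : ℝ, 0 < c ∧ (∃ n₀ : ℕ, ∀ n : ℕ, n₀ ≤ n → Rich 3 ((n : ℝ) ^ (1 / 6 : ℝ)) c n) ∧
      ∀ (k : ℕ) (κ : ℝ), 0 < κ → ∃ B n₀ : ℕ, ∀ n : ℕ, n₀ ≤ n →
        Szemeredi k κ (Real.log n ^ B) (almostPrimes 3 ((n : ℝ) ^ (1 / 6 : ℝ)) (left n))
          (almostPrimes 3 ((n : ℝ) ^ (1 / 6 : ℝ)) (right n))) ∧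
    ∃ c C : ℝ, 0 < c ∧ 0 < C ∧
      (∃ N₀ : ℕ, ∀ N : ℕ, N₀ ≤ N →
        ({n : ℕ | N < n ∧ n ≤ 2 * N ∧ ¬ Rich 2 ((n : ℝ) ^ (1 / 5 : ℝ)) c n}.ncard : ℝ) ≤
          C * (N : ℝ) ^ (0.182 : ℝ)) ∧
      ∀ (k : ℕ) (κ : ℝ), 0 < κ → ∃ B n₀ : ℕ, ∀ n : ℕ, n₀ ≤ n → Rich 2 ((n : ℝ) ^ (1 / 5 : ℝ)) c n →
        Szemeredi k κ (Real.log n ^ B) (almostPrimes 2 ((n : ℝ) ^ (1 / 5 : ℝ)) (left n))
          (almostPrimes 2 ((n : ℝ) ^ (1 / 5 : ℝ)) (right n)) := by
  refine ⟨both, ?_, ?_⟩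
  · obtain ⟨c, hc, n₁, h1⟩ := rich3
    refine ⟨c, hc, ⟨n₁, h1⟩, fun k κ hκ => ?_⟩
    obtain ⟨B, n₀, h⟩ := szem 3 (1 / 6) c (by norm_num) hc k κ hκ
    exact ⟨B, max n₀ n₁, fun n hn => h n ((le_max_left _ _).trans hn) (h1 n ((le_max_right _ _).trans hn))⟩
  · obtain ⟨c, C, hc, hC, N₀, h1⟩ := rich2
    exact ⟨c, C, hc, hC, ⟨N₀, h1⟩, fun k κ hκ => szem 2 (1 / 5) c (by norm_num) hc k κ hκ⟩

end Pool.Agent.Results.MP_1e9cc8_nt.DenseSetsBothSides
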