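import Pool.Agent.K3h31.SQ.Fin2

/-!
# Almost primes very close to the squares of almost all integers, on both sides

Oppermann's conjecture asks for primes in `[n ^ 2 - n, n ^ 2]` and in `[n ^ 2, n ^ 2 + n]`, the `k`-fold
conjecture for at least `k` of them. Here primes are replaced by `P₅` (integers with at most five prime
factors, all of them large), the integers `n` are almost all integers, and the two intervals are much
shorter: their length `H` is anything between a power of `log n` and `n ^ (4/5)`, and they contain the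
expected number of almost primes, up to a constant.

**Theorem.** (1) There are `δ, C > 0` such that for all large `N` and all integers `x₀ ≥ 1`: all `n` with
`1 ≤ n ≤ N` with at most `C N (log N) ^ 11 / x₀` exceptions are such that for ALL real `H` with `x₀ ^ 8 ≤ H ≤ N ^ (4/5)`
both `(n ^ 2, n ^ 2 + H]` and `[n ^ 2 - H, n ^ 2)` contain at least `δ H / log N` integers with at most
five prime factors (with multiplicity), all of them at least `N ^ (1/10)`.

(2) For every natural number `B` there is a natural number `A` such that for all large `N`, for all `n ≤ N` with at most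
`N / (log N) ^ B` exceptions, both `(n ^ 2, n ^ 2 + (log n) ^ A]` and `[n ^ 2 - (log n) ^ A, n ^ 2)`
contain at least `(log n) ^ B` integers with at most five prime factors, all at least `n ^ (1/10)`.

Proof. The weighted linear sieve (of the starting repository) is applied, for fixed `n`, to the numbers
`n ^ 2 + σ k`, `k ≤ H` (`σ = 1` or `-1`), with the level `N ^ (0.445)` (the numbers have the size
`N ^ 2`). The remainders `R_d(n) = #{k ≤ H : d ∣ n ^ 2 + σ k} - H / d` are small on average over `n`: the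
second moment over `n ≤ N` of `∑ c_d R_d(n)` is computed by complete periods. For `g = (d, d')` and `n`
modulo `g` fixed the sums of `R_d` and `R_d'` over the residue classes modulo `d / g`, `d' / g` are
independent, and the mean value of `R_d` is a sum over the divisors `e` of `d / g` of the character sums
`∑ (-σ k / e)` over the `k ≤ H` in a residue class modulo `g`. These are estimated, on average over `e`,
by the Pólya-Vinogradov inequality (`e ≤ H ^ (3/2)`) and by a large sieve for the Jacobi symbols in its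
most elementary form (`e > H ^ (3/2)`; duality and the Pólya-Vinogradov inequality for the character
`e ↦ (k k' / e)`, `k k'` not a square). This is why `H` can be as small as a power of `log N`.
-/

set_option autoImplicit false

namespace Pool.Agent.Results.MP_1e9cc8_nt.NearAlmostAllSquares

/-- a positive integer with at most five prime factors (counted with multiplicity), all at least `w` -/
def AlmostPrime (w : ℝ) (m : ℕ) : Prop :=
  0 < m ∧ m.primeFactorsList.length ≤ 5 ∧ ∀ q : ℕ, q.Prime → q ∣ m → w ≤ q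

/-- the almost primes in `(n ^ 2, n ^ 2 + H]` -/
def above (n : ℕ) (w H : ℝ) : Set ℕ :=
  {m : ℕ | n ^ 2 < m ∧ (m : ℝ) ≤ (n : ℝ) ^ 2 + H ∧ AlmostPrime w m}

/-- the almost primes in `[n ^ 2 - H, n ^ 2)` -/
def below (n : ℕ) (w H : ℝ) : Set ℕ :=
  {m : ℕ | (n : ℝ) ^ 2 - H ≤ m ∧ m < n ^ 2 ∧ AlmostPrime w m}

/-- **Almost primes close to the squares of almost all integers, on both sides.** -/
theorem result :
    (∃ δ C : ℝ, 0 < δ ∧ 0 < C ∧ ∃ N₀ : ℕ, ∀ N : ℕ, N₀ ≤ N → ∀ x₀ : ℕ, 1 ≤ x₀ →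
      ({n : ℕ | 1 ≤ n ∧ n ≤ N ∧ ∃ H : ℝ, (x₀ : ℝ) ^ 8 ≤ H ∧ H ≤ (N : ℝ) ^ (4 / 5 : ℝ) ∧
        (((above n ((N : ℝ) ^ (1 / 10 : ℝ)) H).ncard : ℝ) < δ * H / Real.log N ∨
        ((below n ((N : ℝ) ^ (1 / 10 : ℝ)) H).ncard : ℝ) < δ * H / Real.log N)}.ncard : ℝ) ≤
        C * N * Real.log N ^ 11 / x₀) ∧
    ∀ B : ℕ, ∃ A N₀ : ℕ, ∀ N : ℕ, N₀ ≤ N →
      ({n : ℕ | n ≤ N ∧
        (((above n ((n : ℝ) ^ (1 / 10 : ℝ)) (Real.log n ^ A)).ncard : ℝ) < Real.log n ^ B ∨
        ((below n ((n : ℝ) ^ (1 / 10 : ℝ)) (Real.log n ^ A)).ncard : ℝ) < Real.log n ^ B)}.ncard : ℝ) ≤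
        N / Real.log N ^ B := by
  refine ⟨?_, fun B => Pool.Agent.K3h31.SQ.almost_all B⟩
  obtain ⟨δ, C, hδ, hC, P₀, H₀⟩ := Pool.Agent.K3h31.SQ.all_H
  refine ⟨δ, C, hδ, hC, P₀, fun N hN x₀ hx₀ => ?_⟩
  obtain ⟨B, hB1, hB2⟩ := H₀ N hN x₀ hx₀
  have hsub : {n : ℕ | 1 ≤ n ∧ n ≤ N ∧ ∃ H : ℝ, (x₀ : ℝ) ^ 8 ≤ H ∧ H ≤ (N : ℝ) ^ (4 / 5 : ℝ) ∧
        (((above n ((N : ℝ) ^ (1 / 10 : ℝ)) H).ncard : ℝ) < δ * H / Real.log N ∨
        ((below n ((N : ℝ) ^ (1 / 10 : ℝ)) H).ncard : ℝ) < δ * H / Real.log N)} ⊆ (B : Set ℕ) := by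
    rintro n ⟨hn1, hnN, H, hH1, hH2, hH3⟩
    rw [Finset.mem_coe]
    by_contra hB
    have hH0 : (0 : ℝ) ≤ H := le_trans (by positivity) hH1
    have k1 := hB2 n hn1 hnN hB H hH1 hH2 1 (Or.inl rfl)
    have k2 := hB2 n hn1 hnN hB H hH1 hH2 (-1) (Or.inr rfl)
    have k3 := Pool.Agent.K3h31.SQ.le_above n ((N : ℝ) ^ (1 / 10 : ℝ)) H hH0
    have k4 := Pool.Agent.K3h31.SQ.le_below n ((N : ℝ) ^ (1 / 10 : ℝ)) H hH0
    have k5 : (above n ((N : ℝ) ^ (1 / 10 : ℝ)) H) =
      Pool.Agent.K3h31.SQ.above n ((N : ℝ) ^ (1 / 10 : ℝ)) H := rfl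
    have k6 : (below n ((N : ℝ) ^ (1 / 10 : ℝ)) H) =
      Pool.Agent.K3h31.SQ.below n ((N : ℝ) ^ (1 / 10 : ℝ)) H := rfl
    rw [k5, k6] at hH3
    rcases hH3 with h | h <;> linarith
  have h1 := Set.ncard_le_ncard hsub (Finset.finite_toSet B)
  rw [Set.ncard_coe_finset] at h1
  calc _ ≤ (B.card : ℝ) := by exact_mod_cast h1
    _ ≤ _ := hB1
    _ = _ := by ring

end Pool.Agent.Results.MP_1e9cc8_nt.NearAlmostAllSquares
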