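import Pool.Agent.K3h21.LN.Short

set_option autoImplicit false

/-!
# Clusters of almost primes in all residue classes on both sides of every square

For all large `n` both intervals `(n² - n ^ θ, n²)` and `(n², n² + n ^ θ)`, `θ > 50 / (24 r - 3)` (`θ = 1` and
`r = 3` are allowed, and then all moduli `q ≤ n ^ 0.27`), contain in every reduced residue class modulo every
small `q` clusters of `m` numbers with at most `r` prime factors, at distance `O(q)`.

Method: the sieve of Maynard and Tao with Richert's weights in the slots, in a form which is uniform in the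
modulus and in the position, and Szemerédi's theorem relative to sifted sets.
-/

namespace Pool.Agent.Results.MP_1e9cc8_nt.ResidueClasses

open Finset Filter

/-- `n` has at most `r` prime factors, counted with multiplicity, all of them at least `w`. -/
def AlmostPrime (r : ℕ) (w : ℝ) (n : ℕ) : Prop :=
  n.primeFactorsList.length ≤ r ∧ ∀ p : ℕ, p.Prime → p ∣ n → w ≤ p

/-- The open interval `(a, b)` contains clusters of almost primes `≡ c` modulo `q` of a shape from `S`: there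
are a subset `H` of `S` with `m` elements and natural numbers `u` and `1 ≤ d ≤ D` such that all the numbers
`q (u + j d + h) + c`, `j < l`, `h ∈ H`, lie in `(a, b)` and are almost primes. -/
def HasClusters (r : ℕ) (w : ℝ) (S : Finset ℕ) (m l : ℕ) (D : ℝ) (q c : ℕ) (a b : ℝ) : Prop :=
  ∃ H ⊆ S, H.card = m ∧ ∃ u d : ℕ, 1 ≤ d ∧ (d : ℝ) ≤ D ∧ ∀ j < l, ∀ h ∈ H,
    a < ((q * (u + j * d + h) + c : ℕ) : ℝ) ∧ ((q * (u + j * d + h) + c : ℕ) : ℝ) < b ∧
    AlmostPrime r w (q * (u + j * d + h) + c)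

/-- **Almost primes in both intervals of Oppermann's conjecture, in clusters and in all residue classes.** Let
`r ≥ 3`, `σ ≥ 0` and `50 / (24 r - 3) + σ < θ ≤ 1`. For every `m` there is `K` such that for every set `S` of at
least `K` natural numbers and every `l` there is `B` such that for all sufficiently large `n`, all
`q ≤ n ^ σ` and all `c < q` prime to `q` both intervals `(n² - n ^ θ, n²)` and `(n², n² + n ^ θ)` contain
clusters of `m` numbers `≡ c` modulo `q` with at most `r` prime factors, all of them at least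
`n ^ (1 / (2 r)) / 2`, of a shape from `S`, repeated `l` times in an arithmetic progression with a difference
at most `q (log n) ^ B`. -/
theorem result (r : ℕ) (hr : 3 ≤ r) (θ σ : ℝ) (hσ : 0 ≤ σ) (hθ : 50 / (24 * (r : ℝ) - 3) + σ < θ)
    (hθ1 : θ ≤ 1) (m : ℕ) :
    ∃ K : ℕ, ∀ S : Finset ℕ, K ≤ S.card → ∀ l : ℕ, ∃ B : ℕ, ∀ᶠ n : ℕ in atTop,
      ∀ q c : ℕ, (q : ℝ) ≤ (n : ℝ) ^ σ → c < q → Nat.Coprime c q →
        HasClusters r ((n : ℝ) ^ (1 / (2 * r : ℝ)) / 2) S m l (Real.log n ^ B) q c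
          ((n : ℝ) ^ 2 - (n : ℝ) ^ θ) ((n : ℝ) ^ 2) ∧
        HasClusters r ((n : ℝ) ^ (1 / (2 * r : ℝ)) / 2) S m l (Real.log n ^ B) q c
          ((n : ℝ) ^ 2) ((n : ℝ) ^ 2 + (n : ℝ) ^ θ) := by
  have hrr : (3 : ℝ) ≤ r := by exact_mod_cast hr
  have hden : 0 < 24 * (r : ℝ) - 3 := by linarith
  obtain ⟨κ, hκ0, hκ⟩ : ∃ κ : ℝ, 0 < κ ∧ 50 / (24 * (r : ℝ) - 3) + σ + κ < θ :=
    ⟨(θ - (50 / (24 * (r : ℝ) - 3) + σ)) / 2, by linarith, by linarith⟩
  have h50 : 50 / (24 * (r : ℝ) - 3) = 2 * (25 / (24 * (r : ℝ) - 3)) := by ring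
  obtain ⟨K, hK⟩ := Pool.Agent.K3h21.LN.short r (by omega) (θ / 2) (σ / 2 + κ / 4) (by linarith)
    (by linarith) (by linarith) m
  refine ⟨K, fun S hS l => ?_⟩
  obtain ⟨B, hB⟩ := hK S hS l
  refine ⟨B + 1, ?_⟩
  have hN := tendsto_natCast_atTop_atTop (R := ℝ)
  have hT1 : Tendsto (fun n : ℕ => (n : ℝ) ^ 2) atTop atTop :=
    (tendsto_pow_atTop (by norm_num)).comp hN
  have hT2 : Tendsto (fun n : ℕ => (n : ℝ) ^ 2 - (n : ℝ) ^ θ) atTop atTop := by
    apply tendsto_atTop_mono' atTop _ (tendsto_atTop_add_const_right atTop (-1 : ℝ) hN)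
    filter_upwards [eventually_ge_atTop 2] with n hn
    have hn2 : (2 : ℝ) ≤ n := by exact_mod_cast hn
    have h1 : (n : ℝ) ^ θ ≤ n := by
      calc (n : ℝ) ^ θ ≤ (n : ℝ) ^ (1 : ℝ) := Real.rpow_le_rpow_of_exponent_le (by linarith) hθ1
        _ = n := Real.rpow_one _
    nlinarith
  have e2 : ∀ᶠ n : ℕ in atTop, (2 : ℝ) ^ B ≤ Real.log n :=
    (Real.tendsto_log_atTop.comp hN).eventually_ge_atTop _
  have e3 : ∀ᶠ n : ℕ in atTop, (2 : ℝ) ≤ (n : ℝ) ^ (κ / 2) :=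
    ((tendsto_rpow_atTop (by linarith)).comp hN).eventually_ge_atTop _
  filter_upwards [hT1.eventually hB, hT2.eventually hB, e2, e3, eventually_ge_atTop 4] with
    n hx1 hx2 hlog hpow hn4 q c hq hcq hcop
  have hn : (4 : ℝ) ≤ n := by exact_mod_cast hn4
  have hn0 : (0 : ℝ) < n := by linarith
  have hn1 : (1 : ℝ) ≤ n := by linarith
  have hnθ : (n : ℝ) ^ θ ≤ n := by
    calc (n : ℝ) ^ θ ≤ (n : ℝ) ^ (1 : ℝ) := Real.rpow_le_rpow_of_exponent_le (by linarith) hθ1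
      _ = n := Real.rpow_one _
  have hsq : ∀ a : ℝ, ((n : ℝ) ^ 2) ^ (a / 2) = (n : ℝ) ^ a := by
    intro a
    rw [← Real.rpow_natCast, ← Real.rpow_mul hn0.le]
    congr 1
    push_cast
    ring
  have hhalf : (n : ℝ) ^ 2 / 2 ≤ (n : ℝ) ^ 2 - (n : ℝ) ^ θ := by nlinarith
  have hge1 : (1 : ℝ) ≤ (n : ℝ) ^ 2 / 2 := by nlinarith
  have hl0 : 0 ≤ Real.log n := Real.log_nonneg (by linarith)
  have hlogle : ∀ x : ℝ, (n : ℝ) ^ 2 / 2 ≤ x → x ≤ (n : ℝ) ^ 2 → Real.log x ^ B ≤ Real.log n ^ (B + 1) := by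
    intro x h1 h2
    have hx0 : 0 < x := by linarith
    calc Real.log x ^ B ≤ (2 * Real.log n) ^ B := by
          apply pow_le_pow_left₀ (Real.log_nonneg (by linarith))
          calc Real.log x ≤ Real.log ((n : ℝ) ^ 2) := Real.log_le_log hx0 h2
            _ = 2 * Real.log n := by rw [Real.log_pow]; push_cast; ring
      _ = 2 ^ B * Real.log n ^ B := mul_pow _ _ _
      _ ≤ Real.log n * Real.log n ^ B := by gcongr
      _ = Real.log n ^ (B + 1) := by rw [pow_succ]; ring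
  have hqle : ∀ x : ℝ, (n : ℝ) ^ 2 / 2 ≤ x → (q : ℝ) ≤ x ^ (σ / 2 + κ / 4) := by
    intro x h1
    have hx0 : 0 < x := by linarith
    have h3 : (n : ℝ) ^ σ * (n : ℝ) ^ (κ / 2) = ((n : ℝ) ^ 2) ^ (σ / 2 + κ / 4) := by
      rw [← Real.rpow_add hn0, show σ / 2 + κ / 4 = (σ + κ / 2) / 2 by ring, hsq]
    have h4 : ((n : ℝ) ^ 2) ^ (σ / 2 + κ / 4) ≤ (2 * x) ^ (σ / 2 + κ / 4) :=
      Real.rpow_le_rpow (by positivity) (by linarith) (by linarith)
    rw [Real.mul_rpow (by norm_num) hx0.le] at h4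
    have h5 : (2 : ℝ) ^ (σ / 2 + κ / 4) ≤ 2 := by
      have h50' : 0 < 50 / (24 * (r : ℝ) - 3) := by positivity
      calc (2 : ℝ) ^ (σ / 2 + κ / 4) ≤ 2 ^ (1 : ℝ) :=
            Real.rpow_le_rpow_of_exponent_le (by norm_num) (by linarith)
        _ = 2 := Real.rpow_one _
    have h6 : 0 ≤ x ^ (σ / 2 + κ / 4) := by positivity
    have h7 : (2 : ℝ) ^ (σ / 2 + κ / 4) * x ^ (σ / 2 + κ / 4) ≤ 2 * x ^ (σ / 2 + κ / 4) := by gcongr
    have h8 : (0 : ℝ) ≤ (n : ℝ) ^ σ := by positivity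
    nlinarith
  have hwle : ∀ x : ℝ, (n : ℝ) ^ 2 / 2 ≤ x → (n : ℝ) ^ (1 / (2 * r : ℝ)) / 2 ≤ x ^ (1 / (4 * r : ℝ)) := by
    intro x h1
    have hx0 : 0 < x := by linarith
    have hr0 : (0 : ℝ) < r := by linarith
    have h3 : (n : ℝ) ^ (1 / (2 * r : ℝ)) = ((n : ℝ) ^ 2) ^ (1 / (4 * r : ℝ)) := by
      rw [show (1 / (4 * r : ℝ)) = (1 / (2 * r : ℝ)) / 2 by field_simp; norm_num, hsq]
    have h4 : ((n : ℝ) ^ 2) ^ (1 / (4 * r : ℝ)) ≤ (2 * x) ^ (1 / (4 * r : ℝ)) :=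
      Real.rpow_le_rpow (by positivity) (by linarith) (by positivity)
    rw [Real.mul_rpow (by norm_num) hx0.le] at h4
    have h5 : (2 : ℝ) ^ (1 / (4 * r : ℝ)) ≤ 2 := by
      calc (2 : ℝ) ^ (1 / (4 * r : ℝ)) ≤ 2 ^ (1 : ℝ) := by
            apply Real.rpow_le_rpow_of_exponent_le (by norm_num)
            rw [div_le_one (by positivity)]
            linarith
        _ = 2 := Real.rpow_one _
    have h6 : 0 ≤ x ^ (1 / (4 * r : ℝ)) := by positivity
    have h7 : (2 : ℝ) ^ (1 / (4 * r : ℝ)) * x ^ (1 / (4 * r : ℝ)) ≤ 2 * x ^ (1 / (4 * r : ℝ)) := by gcongr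
    linarith
  constructor
  · obtain ⟨H, hH, hHc, u, d, h1, h2, h3⟩ := hx2 q c (hqle _ hhalf) hcq hcop
    refine ⟨H, hH, hHc, u, d, h1, h2.trans (hlogle _ hhalf (by
      have : 0 ≤ (n : ℝ) ^ θ := by positivity
      linarith)), fun j hj h hh => ?_⟩
    obtain ⟨a1, a2, a3, a4⟩ := h3 j hj h hh
    refine ⟨a1, a2.trans_le ?_, a3, fun p hp hpd => (hwle _ hhalf).trans (a4 p hp hpd)⟩
    have h5 : ((n : ℝ) ^ 2 - (n : ℝ) ^ θ) ^ (θ / 2) ≤ (n : ℝ) ^ θ := by
      have h50' : 0 < 50 / (24 * (r : ℝ) - 3) := by positivity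
      calc ((n : ℝ) ^ 2 - (n : ℝ) ^ θ) ^ (θ / 2) ≤ ((n : ℝ) ^ 2) ^ (θ / 2) := by
            apply Real.rpow_le_rpow (by linarith) (by
              have : 0 ≤ (n : ℝ) ^ θ := by positivity
              linarith) (by linarith)
        _ = (n : ℝ) ^ θ := hsq θ
    linarith
  · obtain ⟨H, hH, hHc, u, d, h1, h2, h3⟩ := hx1 q c (hqle _ (by linarith)) hcq hcop
    refine ⟨H, hH, hHc, u, d, h1, h2.trans (hlogle _ (by linarith) le_rfl), fun j hj h hh => ?_⟩
    obtain ⟨a1, a2, a3, a4⟩ := h3 j hj h hh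
    rw [hsq θ] at a2
    exact ⟨a1, a2, a3, fun p hp hpd => (hwle _ (by linarith)).trans (a4 p hp hpd)⟩

end Pool.Agent.Results.MP_1e9cc8_nt.ResidueClasses
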