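import Pool.Agent.K3h31.WL.SqFin

/-!
# Numbers with two or three prime factors on both sides of almost all squares, at lengths below `n ^ 0.6`

Oppermann's conjecture asks for primes in `[n ^ 2 - n, n ^ 2]` and in `[n ^ 2, n ^ 2 + n]`, the `k`-fold conjecture for
at least `k` of them. Here primes are replaced by `P₂` or `P₃` (integers with at most two or three prime factors, all of
them large), the integers `n` are almost all integers, and the intervals are much shorter.

**Theorem.** Let `Λ = 1 + log (5/2) / log 3 = 1.834...`, so that `4 / Λ < 2.182`.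

(1) For every `η > 4 / Λ` there are `δ, C > 0` such that for all `N ≥ 2` and all real `H₀ ≥ 1`: all `n` in `(N, 2 N]`
with at most `C N ^ η / H₀ ^ 2` exceptions are such that for ALL real `H` with `H₀ ≤ H ≤ N` both `(n ^ 2, n ^ 2 + H]` and
`[n ^ 2 - H, n ^ 2)` contain at least `δ H / log N` integers with at most two prime factors (with multiplicity), all of
them at least `N ^ (1/4)`.

(2) There are `δ, C > 0` such that the same holds with at most three prime factors, all of them at least `N ^ (6/25)`,
with at most `C N ^ 2 (log N) ^ 7 / H₀ ^ 2` exceptions.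

So for almost all `n` there are `P₂` in both intervals of length `n ^ 0.591`, and `P₃` in both intervals of length
`n ^ (1/2) (log n) ^ 4`, and in all the longer ones up to the length `n` of the question, with the expected number up to
a constant. Known: for all `n` there are `P₂` at the length `n ^ 0.88`, and for almost all `n` there are primes at the
length `n ^ 0.73` (and `n ^ (1/2 + ε)` on the Riemann hypothesis), by the results on sums of large gaps between primes.

Proof. Write `X = 4 N ^ 2`. The weighted linear sieve with the weights of Richert of level `D` is applied to the integers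
of the windows `(x, x + H]` for all the `x ≤ X`. The mean square over `x` of the remainder term is estimated by the large
sieve inequality: its Fourier expansion has the frequencies `a / q`, `q ≤ D`, and the sum over the window gains a factor
`H`, since the sum of the squares of the window kernel over the `a` modulo `q` is at most `q H`; this gives
`(X + D ^ 2) H (log X) ^ 5` for the sum over `x` of the squares of the remainder terms. So all but
`(X + D ^ 2) (log X) ^ 7 / H` of the `x` are good. If a window next to `n ^ 2` is bad, then the same is true of the `H / 2`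
windows of half the length inside it, and these are disjoint for different `n`; this gains a further factor `H`. The
squares of medium primes are dealt with by a second moment and (large squares) by counting directly.
-/

set_option autoImplicit false

namespace Pool.Agent.Results.MP_1e9cc8_nt.TwoPrimeFactorsNearSquares

/-- a positive integer with at most `r` prime factors (counted with multiplicity), all at least `w` -/
def AlmostPrime (r : ℕ) (w : ℝ) (m : ℕ) : Prop :=
  0 < m ∧ m.primeFactorsList.length ≤ r ∧ ∀ q : ℕ, q.Prime → q ∣ m → w ≤ q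

/-- the almost primes in `(n ^ 2, n ^ 2 + H]` -/
def above (r n : ℕ) (w H : ℝ) : Set ℕ :=
  {m : ℕ | n ^ 2 < m ∧ (m : ℝ) ≤ (n : ℝ) ^ 2 + H ∧ AlmostPrime r w m}

/-- the almost primes in `[n ^ 2 - H, n ^ 2)` -/
def below (r n : ℕ) (w H : ℝ) : Set ℕ :=
  {m : ℕ | (n : ℝ) ^ 2 - H ≤ m ∧ m < n ^ 2 ∧ AlmostPrime r w m}

/-- the exceptional `n` in `(N, 2 N]`: for some `H` with `H₀ ≤ H ≤ N` one of the two intervals of length `H` next to
`n ^ 2` contains fewer than `δ H / log N` of the integers with at most `r` prime factors, all at least `N ^ c` -/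
def exceptional (r : ℕ) (c δ : ℝ) (N : ℕ) (H₀ : ℝ) : Set ℕ :=
  {n : ℕ | N < n ∧ n ≤ 2 * N ∧ ∃ H : ℝ, H₀ ≤ H ∧ H ≤ N ∧
    (((above r n ((N : ℝ) ^ c) H).ncard : ℝ) < δ * H / Real.log N ∨
     ((below r n ((N : ℝ) ^ c) H).ncard : ℝ) < δ * H / Real.log N)}

/-- the constant `1 + log (5/2) / log 3 = 1.834...` -/
noncomputable def Lam : ℝ := 1 + Real.log (5 / 2) / Real.log 3

/-- **Two or three prime factors on both sides of almost all squares.** -/
theorem result :
    (∀ η : ℝ, 4 / Lam < η → ∃ δ C : ℝ, 0 < δ ∧ 0 < C ∧ ∀ N : ℕ, 2 ≤ N → ∀ H₀ : ℝ, 1 ≤ H₀ →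
      ((exceptional 2 (1 / 4) δ N H₀).ncard : ℝ) ≤ C * (N : ℝ) ^ η / H₀ ^ 2) ∧
    4 / Lam < 2182 / 1000 ∧
    ∃ δ C : ℝ, 0 < δ ∧ 0 < C ∧ ∀ N : ℕ, 2 ≤ N → ∀ H₀ : ℝ, 1 ≤ H₀ →
      ((exceptional 3 (6 / 25) δ N H₀).ncard : ℝ) ≤ C * (N : ℝ) ^ 2 * Real.log N ^ 7 / H₀ ^ 2 := by
  have key : Lam = Pool.Agent.K3h19.RV.Lam 2 := by
    unfold Lam Pool.Agent.K3h19.RV.Lam
    norm_num
  refine ⟨fun η hη => ?_, ?_, ?_⟩
  · rw [key] at hη
    exact Pool.Agent.K3h31.WL.two η hη
  · rw [key]
    have h := Pool.Agent.K3h19.RV.lam_two
    have : 4 / Pool.Agent.K3h19.RV.Lam 2 ≤ 4 / (1 + 5 / 6) :=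
      div_le_div_of_nonneg_left (by norm_num) (by norm_num) h
    norm_num at this ⊢
    linarith
  · exact Pool.Agent.K3h31.WL.three

end Pool.Agent.Results.MP_1e9cc8_nt.TwoPrimeFactorsNearSquares
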